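import Pool.Agent.Helper6K9.E3.Stm
import Pool.Agent.Helper6K9.ES.Dis
import Pool.Agent.Helper6K9.ES.Cmp

/-!
# Different passes of the tube are disjoint
-/

set_option autoImplicit false

namespace Pool.Agent.Helper88K9.E3

open Set Filter Topology
open scoped ContDiff
open Pool.Agent.Helper6K9
open Pool.Agent.Helper6K9.ES (Q E Per Sm bmp)
open Pool.Agent.Helper6K9.E3 (th0 th Sy SyA bpr S_SEP S_DIS)

variable {m : ℕ}

/-- smooth periodic functions are Lipschitz continuous -/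
theorem lip {G : E m → ℝ} (h : Sm G) :
    ∃ L : ℝ, 0 ≤ L ∧ ∀ p q : E m, |G p - G q| ≤ L * ‖p - q‖ := by
  have hc : Continuous (fderiv ℝ G) := h.1.continuous_fderiv (by simp)
  have hp : Per fun p => ‖fderiv ℝ G p‖ := by
    intro p k l
    obtain ⟨v, hv⟩ : ∃ v : E m, v = (fun i => (k i : ℝ), (l : ℝ)) := ⟨_, rfl⟩
    have h1 : (fun q => G (q + v)) = G := by
      funext q
      rw [hv]
      exact h.2 q k l
    have h2 : fderiv ℝ G (p + v) = fderiv ℝ G p := by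
      have h3 := fderiv_comp_add_right (𝕜 := ℝ) (f := G) (x := p) v
      rw [h1] at h3
      exact h3.symm
    have h4 : ((p.1 + (fun i => (k i : ℝ)), p.2 + (l : ℝ)) : E m) = p + v := by
      rw [hv]
      rfl
    show ‖fderiv ℝ G (p.1 + (fun i => (k i : ℝ)), p.2 + (l : ℝ))‖ = ‖fderiv ℝ G p‖
    rw [h4, h2]
  obtain ⟨L, hL0, hL⟩ := ES.CmpL.per_bd hc.norm hp
  refine ⟨L, hL0, fun p q => ?_⟩
  have h5 := Convex.norm_image_sub_le_of_norm_fderiv_le (𝕜 := ℝ) (f := G) (C := L) (s := univ)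
    (x := q) (y := p) (fun x _ => (h.1.differentiable (by simp)) x)
    (fun x _ => (le_abs_self _).trans (hL x)) convex_univ (mem_univ q) (mem_univ p)
  rwa [Real.norm_eq_abs] at h5

theorem th0_cont (i : ℕ) {t : ℝ} (ht : 0 < t) : ContinuousAt (th0 i) t := by
  unfold th0
  split_ifs
  · exact continuousAt_const.mul (Real.continuousAt_rpow_const _ _ (Or.inl ht.ne'))
  · exact continuousAt_const.mul (Real.continuousAt_rpow_const _ _ (Or.inl ht.ne'))
  · exact continuousAt_const.mul (Real.continuousAt_rpow_const _ _ (Or.inl ht.ne'))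
  · exact continuousAt_const

/-- outside of the tube -/
theorem bmp_ev {X : ℝ → Q m} {p : E m} {j : Fin (m + 1)} {e : ℝ}
    (hc : ContinuousAt (fun t => X t j) p.2) (hp : 0 < p.2)
    (h : 1 / 64 < |p.2 ^ e * Real.sin (Real.pi * (p.1 j - X p.2 j))|) :
    ∀ᶠ q : E m in 𝓝 p, bmp (q.2 ^ e * Real.sin (Real.pi * (q.1 j - X q.2 j))) = 0 := by
  have h1 : ContinuousAt (fun p : E m =>
      |p.2 ^ e * Real.sin (Real.pi * (p.1 j - X p.2 j))|) p := by
    have e1 : ContinuousAt (fun p : E m => p.2 ^ e) p :=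
      ContinuousAt.comp (g := fun t : ℝ => t ^ e) (f := fun p : E m => p.2)
        (Real.continuousAt_rpow_const _ _ (Or.inl hp.ne')) continuousAt_snd
    have e2 : ContinuousAt (fun p : E m => X p.2 j) p :=
      ContinuousAt.comp (g := fun t => X t j) (f := fun p : E m => p.2) hc continuousAt_snd
    have e3 : ContinuousAt (fun p : E m => p.1 j) p := by fun_prop
    exact (e1.mul (Real.continuous_sin.continuousAt.comp
      (continuousAt_const.mul (e3.sub e2)))).abs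
  filter_upwards [h1.eventually (lt_mem_nhds h)] with q hq
  exact ES.TugL.bmp_zero hq.le

/-- the cut-off vanishes near points far from the curve in the fast direction -/
theorem bpr_zero0 {X : ℝ → Q m} {p : E m}
    (hc : ContinuousAt (fun t => X t 0) p.2) (hp : 0 < p.2)
    (h : 1 / 64 < |p.2 ^ (7 / 20 : ℝ) * Real.sin (Real.pi * (p.1 0 - X p.2 0))|) :
    bpr X =ᶠ[𝓝 p] 0 := by
  filter_upwards [bmp_ev hc hp h] with q hq
  show bpr X q = 0
  unfold bpr
  rw [hq, zero_mul]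

/-- the cut-off vanishes near points far from the curve in a slow direction -/
theorem bpr_zeroS {X : ℝ → Q m} {p : E m} {l : Fin m}
    (hc : ContinuousAt (fun t => X t l.succ) p.2) (hp : 0 < p.2)
    (h : 1 / 64 < |p.2 ^ (11 / 20 : ℝ) * Real.sin (Real.pi * (p.1 l.succ - X p.2 l.succ))|) :
    bpr X =ᶠ[𝓝 p] 0 := by
  filter_upwards [bmp_ev hc hp h] with q hq
  show bpr X q = 0
  unfold bpr
  rw [Finset.prod_eq_zero (Finset.mem_univ l) hq, mul_zero]

/-- one constant for finitely many bounds -/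
theorem one_const {ι : Type} [Fintype ι] {P : ι → ℝ → Prop} (hm : ∀ i a b, a ≤ b → P i a → P i b)
    (h : ∀ i, ∃ C : ℝ, 0 ≤ C ∧ P i C) : ∃ C : ℝ, 0 ≤ C ∧ ∀ i, P i C := by
  choose C h0 h1 using h
  exact ⟨∑ i, C i, Finset.sum_nonneg fun i _ => h0 i, fun i =>
    hm i _ _ (Finset.single_le_sum (fun j _ => h0 j) (Finset.mem_univ i)) (h1 i)⟩

/-- the bound of a symbol -/
theorem sy_bd {a : ℝ} {h : ℝ → ℝ} (H : SyA a h) :
    ∃ C : ℝ, 0 ≤ C ∧ ∀ t : ℝ, 1 ≤ t → |h t| ≤ C * t ^ a := by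
  obtain ⟨C, hC⟩ := H 0
  refine ⟨|C|, abs_nonneg _, fun t ht => (hC t ht).trans ?_⟩
  exact mul_le_mul_of_nonneg_right (le_abs_self C) (Real.rpow_nonneg (by linarith) _)

/-- the increments of the factor `t^(-2/5)` -/
theorem inc {τ k : ℝ} (hτ : 0 < τ) (hk : 0 < k) :
    |(τ + k) ^ (-2 / 5 : ℝ) - τ ^ (-2 / 5 : ℝ)| ≤ k * τ ^ (-7 / 5 : ℝ) := by
  have hc : ContinuousOn (fun x : ℝ => x ^ (-2 / 5 : ℝ)) (Icc τ (τ + k)) := fun x hx =>
    (Real.continuousAt_rpow_const _ _ (Or.inl (hτ.trans_le hx.1).ne')).continuousWithinAt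
  obtain ⟨c, hc1, hc2⟩ := exists_hasDerivAt_eq_slope (fun x : ℝ => x ^ (-2 / 5 : ℝ))
    (fun x => (-2 / 5 : ℝ) * x ^ (-2 / 5 - 1 : ℝ)) (by linarith : τ < τ + k) hc
    (fun x hx => Real.hasDerivAt_rpow_const (Or.inl (hτ.trans hx.1).ne'))
  have hc0 : 0 < c := hτ.trans hc1.1
  have h1 : (τ + k) ^ (-2 / 5 : ℝ) - τ ^ (-2 / 5 : ℝ) = k * ((-2 / 5 : ℝ) * c ^ (-7 / 5 : ℝ)) := by
    have h2 : (-2 / 5 : ℝ) * c ^ (-2 / 5 - 1 : ℝ) =
      ((τ + k) ^ (-2 / 5 : ℝ) - τ ^ (-2 / 5 : ℝ)) / (τ + k - τ) := hc2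
    rw [show (-2 / 5 - 1 : ℝ) = -7 / 5 by norm_num, show τ + k - τ = k by ring] at h2
    rw [h2]
    field_simp
  have h3 : 0 < c ^ (-7 / 5 : ℝ) := Real.rpow_pos_of_pos hc0 _
  have h4 : c ^ (-7 / 5 : ℝ) ≤ τ ^ (-7 / 5 : ℝ) :=
    Real.rpow_le_rpow_of_nonpos hτ hc1.1.le (by norm_num)
  rw [h1, abs_mul, abs_of_pos hk]
  refine mul_le_mul_of_nonneg_left ?_ hk.le
  rw [abs_mul, abs_of_pos h3]
  norm_num
  linarith

theorem dis : S_SEP → S_DIS := by
  intro hsep m hm X G hG hX hR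
  -- the constants
  obtain ⟨K1, hK10, hK1⟩ := one_const
    (P := fun i C => ∀ t : ℝ, 1 ≤ t → |X t i - th m t i| ≤ C * t ^ (-2 / 5 : ℝ))
    (fun i a b hab H t ht => (H t ht).trans
      (mul_le_mul_of_nonneg_right hab (Real.rpow_nonneg (by linarith) _)))
    (fun i => sy_bd (hX i))
  obtain ⟨K2, hK20, hK2⟩ := one_const
    (P := fun i C => ∀ t : ℝ, 1 ≤ t →
      |X t i - th m t i - t ^ (-2 / 5 : ℝ) * G i (th m t, t)| ≤ C * t ^ (-3 / 5 : ℝ))
    (fun i a b hab H t ht => (H t ht).trans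
      (mul_le_mul_of_nonneg_right hab (Real.rpow_nonneg (by linarith) _)))
    (fun i => sy_bd (hR i))
  obtain ⟨K3, hK30, hK3⟩ := one_const
    (P := fun i C => ∀ p : E m, |G i p| ≤ C)
    (fun i a b hab H p => (H p).trans hab)
    (fun i => ES.CmpL.per_bd (hG i).1.continuous (hG i).2)
  obtain ⟨K4, hK40, hK4⟩ := one_const
    (P := fun i C => ∀ p q : E m, |G i p - G i q| ≤ C * ‖p - q‖)
    (fun i a b hab H p q => (H p q).trans
      (mul_le_mul_of_nonneg_right hab (norm_nonneg _)))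
    (fun i => lip (hG i))
  have hcX : ∀ i, ∀ t : ℝ, 0 < t → ContinuousAt (fun t => X t i) t := by
    intro i t ht
    have h1 : DifferentiableOn ℝ (fun t => X t i - th m t i) (Ioi 0) := (hX i 1).2.1
    have h2 : ContinuousAt (fun t => X t i - th m t i) t :=
      (h1.differentiableAt (Ioi_mem_nhds ht)).continuousAt
    have h3 : ContinuousAt (fun t => th m t i) t := th0_cont i ht
    have h4 := h2.add h3
    have h5 : ((fun t => X t i - th m t i) + fun t => th m t i) = fun t => X t i := by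
      funext s
      simp
    rwa [h5] at h4
  obtain ⟨T₀, hT₀, hS⟩ := hsep (2 * K1 + K3)
  -- the time from which on the remainders are small
  obtain ⟨T₂, hT₂⟩ : ∃ T₂ : ℝ, ∀ t, T₂ ≤ t →
      (2 * K2 + K4 * (1 + 2 * K1)) * t ^ (-(1 / 20) : ℝ) < 1 / 100 := by
    have h1 : Tendsto (fun t : ℝ => t ^ (-(1 / 20) : ℝ)) atTop (𝓝 0) :=
      tendsto_rpow_neg_atTop (by norm_num)
    have h2 := h1.const_mul (2 * K2 + K4 * (1 + 2 * K1))
    rw [mul_zero] at h2
    exact (h2.eventually (gt_mem_nhds (by norm_num))).exists_forall_of_atTop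
  refine ⟨max T₀ (max T₂ 1), le_max_of_le_right (le_max_right _ _), fun p hp k hk => ?_⟩
  obtain ⟨τ, hτ⟩ : ∃ τ, τ = p.2 := ⟨_, rfl⟩
  rw [← hτ] at hp ⊢
  have hτ0 : T₀ ≤ τ := (le_max_left _ _).trans hp
  have hτ2 : T₂ ≤ τ := (le_max_of_le_right (le_max_left _ _)).trans hp
  have hτ1 : 1 ≤ τ := (le_max_of_le_right (le_max_right _ _)).trans hp
  have hτp : 0 < τ := by linarith
  have hk1 : (1 : ℝ) ≤ k := by exact_mod_cast hk
  have hk0 : (0 : ℝ) < k := by linarith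
  obtain ⟨hs1, hs2⟩ := hS τ hτ0 k hk
  by_contra hcon
  push Not at hcon
  obtain ⟨hc1, hc2⟩ := hcon
  -- the increments of `X` modulo `1`
  have hpow : ∀ (e s : ℝ), 0 < s → ∀ y : ℝ, |s ^ e * y| ≤ 1 / 64 →
      |y| ≤ 1 / 64 * s ^ (-e) := by
    intro e s hs y hy
    rw [abs_mul, abs_of_pos (Real.rpow_pos_of_pos hs _)] at hy
    rw [Real.rpow_neg hs.le, ← div_eq_mul_inv, le_div_iff₀ (Real.rpow_pos_of_pos hs _), mul_comm]
    exact hy
  have hincr : ∀ (j : Fin (m + 1)) (e : ℝ), 0 ≤ e →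
      |τ ^ e * Real.sin (Real.pi * (p.1 j - X τ j))| ≤ 1 / 64 →
      |(τ + k) ^ e * Real.sin (Real.pi * (p.1 j - X (τ + k) j))| ≤ 1 / 64 →
      ∃ a : ℤ, |X (τ + k) j - X τ j - a| ≤ 1 / 64 * τ ^ (-e) := by
    intro j e he h1 h2
    have h3 := hpow e τ hτp _ h1
    have h4 := hpow e (τ + k) (by linarith) _ h2
    have h5 := ES.DisL.abs_sin_sub (Real.pi * (p.1 j - X τ j)) (Real.pi * (p.1 j - X (τ + k) j))
    have h6 : Real.pi * (p.1 j - X τ j) - Real.pi * (p.1 j - X (τ + k) j) =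
      Real.pi * (X (τ + k) j - X τ j) := by ring
    rw [h6] at h5
    obtain ⟨a, ha⟩ := ES.DisL.exists_int (X (τ + k) j - X τ j)
    have h7 : (τ + k) ^ (-e) ≤ τ ^ (-e) :=
      Real.rpow_le_rpow_of_nonpos hτp (by linarith) (by linarith)
    exact ⟨a, by linarith⟩
  have hinc0 : ∃ a : ℤ, |X (τ + k) 0 - X τ 0 - a| ≤ 1 / 64 * τ ^ (-(7 / 20) : ℝ) := by
    refine hincr 0 (7 / 20) (by norm_num) ?_ ?_
    · by_contra h
      push Not at h
      rw [hτ] at h
      exact hc1 (bpr_zero0 (hcX _ _ (by rw [← hτ]; exact hτp)) (by rw [← hτ]; exact hτp) h)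
    · by_contra h
      push Not at h
      exact hc2 (bpr_zero0 (p := (p.1, τ + k)) (hcX _ _ (by simp only; linarith))
        (by simp only; linarith) h)
  have hincS : ∀ l : Fin m, ∃ a : ℤ,
      |X (τ + k) l.succ - X τ l.succ - a| ≤ 1 / 64 * τ ^ (-(11 / 20) : ℝ) := by
    intro l
    refine hincr l.succ (11 / 20) (by norm_num) ?_ ?_
    · by_contra h
      push Not at h
      rw [hτ] at h
      exact hc1 (bpr_zeroS (hcX _ _ (by rw [← hτ]; exact hτp)) (by rw [← hτ]; exact hτp) h)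
    · by_contra h
      push Not at h
      exact hc2 (bpr_zeroS (p := (p.1, τ + k)) (hcX _ _ (by simp only; linarith))
        (by simp only; linarith) h)
  have q0 : (0 : ℝ) < τ ^ (-11 / 20 : ℝ) := Real.rpow_pos_of_pos hτp _
  have q1 : (τ + k) ^ (-2 / 5 : ℝ) ≤ τ ^ (-2 / 5 : ℝ) :=
    Real.rpow_le_rpow_of_nonpos hτp (by linarith) (by norm_num)
  -- the increments of `X - θ`
  have hD : ∀ j : Fin (m + 1), |(X (τ + k) j - th m (τ + k) j) - (X τ j - th m τ j)| ≤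
      2 * K1 * τ ^ (-2 / 5 : ℝ) := by
    intro j
    have e1 := hK1 j (τ + k) (by linarith)
    have e2 := hK1 j τ hτ1
    have e3 : K1 * (τ + k) ^ (-2 / 5 : ℝ) ≤ K1 * τ ^ (-2 / 5 : ℝ) :=
      mul_le_mul_of_nonneg_left q1 hK10
    have e4 := abs_sub (X (τ + k) j - th m (τ + k) j) (X τ j - th m τ j)
    linarith
  rw [show (-(7 / 20) : ℝ) = -7 / 20 by norm_num] at hinc0
  rw [show (-(11 / 20) : ℝ) = -11 / 20 by norm_num] at hincS
  have hth : ∀ (j : Fin (m + 1)) (a : ℤ), |th m (τ + k) j - th m τ j - a| ≤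
      |X (τ + k) j - X τ j - a| +
        |(X (τ + k) j - th m (τ + k) j) - (X τ j - th m τ j)| := by
    intro j a
    have e6 : th m (τ + k) j - th m τ j - a = (X (τ + k) j - X τ j - a) -
        ((X (τ + k) j - th m (τ + k) j) - (X τ j - th m τ j)) := by ring
    rw [e6]
    exact abs_sub _ _
  rcases lt_or_ge τ (k : ℝ) with hkτ | hkτ
  · -- the late returns
    obtain ⟨a, ha⟩ := hincS ⟨1, by omega⟩
    have h1 := hs2 hkτ a
    have h2 := hth (Fin.succ ⟨1, by omega⟩) a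
    have h3 := hD (Fin.succ ⟨1, by omega⟩)
    have h4 : th m (τ + k) (Fin.succ (⟨1, by omega⟩ : Fin m)) = th0 2 (τ + k) := rfl
    have h5 : th m τ (Fin.succ (⟨1, by omega⟩ : Fin m)) = th0 2 τ := rfl
    rw [h4, h5] at h2
    have h6 : 0 ≤ K3 * τ ^ (-2 / 5 : ℝ) := mul_nonneg hK30 (Real.rpow_nonneg hτp.le _)
    rw [h4, h5] at h3
    nlinarith
  · -- the early returns
    obtain ⟨i, hi, hsi⟩ := hs1 hkτ
    obtain ⟨l, hl⟩ : ∃ l : Fin m, (l.succ : ℕ) = i :=
      ⟨⟨i - 1, by omega⟩, by simp only [Fin.succ_mk]; omega⟩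
    -- the integers
    have hall : ∀ j : Fin (m + 1), ∃ a : ℤ, |X (τ + k) j - X τ j - a| ≤ 1 / 64 * τ ^ (-7 / 20 : ℝ) := by
      intro j
      refine Fin.cases hinc0 (fun l => ?_) j
      obtain ⟨a, ha⟩ := hincS l
      refine ⟨a, ha.trans ?_⟩
      exact mul_le_mul_of_nonneg_left (Real.rpow_le_rpow_of_exponent_le hτ1 (by norm_num))
        (by norm_num)
    choose a ha using hall
    have q2 : τ ^ (-2 / 5 : ℝ) ≤ τ ^ (-7 / 20 : ℝ) :=
      Real.rpow_le_rpow_of_exponent_le hτ1 (by norm_num)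
    have q3 : 0 < τ ^ (-7 / 20 : ℝ) := Real.rpow_pos_of_pos hτp _
    have h1 : ∀ j, |th m (τ + k) j - th m τ j - a j| ≤ (1 + 2 * K1) * τ ^ (-7 / 20 : ℝ) := by
      intro j
      have e1 := hth j (a j)
      have e2 := hD j
      have e3 := ha j
      have e4 : 2 * K1 * τ ^ (-2 / 5 : ℝ) ≤ 2 * K1 * τ ^ (-7 / 20 : ℝ) :=
        mul_le_mul_of_nonneg_left q2 (by linarith)
      linarith
    -- the increment of `G`
    have h2 : |G l.succ (th m (τ + k), τ + k) - G l.succ (th m τ, τ)| ≤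
        K4 * ((1 + 2 * K1) * τ ^ (-7 / 20 : ℝ)) := by
      have e1 : G l.succ (th m (τ + k), τ + k) =
          G l.succ (fun j => th m (τ + k) j - a j, τ) := by
        have e2 := (hG l.succ).2 (fun j => th m (τ + k) j - a j, τ) a k
        rw [← e2]
        congr 1
        apply Prod.ext
        · funext j
          show th m (τ + k) j = th m (τ + k) j - a j + a j
          ring
        · show τ + (k : ℝ) = τ + ((k : ℤ) : ℝ)
          simp
      rw [e1]
      refine (hK4 l.succ _ _).trans (mul_le_mul_of_nonneg_left ?_ hK40)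
      have e3 : 0 ≤ (1 + 2 * K1) * τ ^ (-7 / 20 : ℝ) := by positivity
      rw [Prod.norm_def]
      refine max_le ?_ ?_
      · rw [pi_norm_le_iff_of_nonneg e3]
        intro j
        rw [Real.norm_eq_abs]
        have e4 : (((fun j => th m (τ + k) j - a j, τ) : E m) - (th m τ, τ)).1 j =
            th m (τ + k) j - th m τ j - a j := by
          show th m (τ + k) j - a j - th m τ j = _
          ring
        rw [e4]
        exact h1 j
      · have e5 : (((fun j => th m (τ + k) j - a j, τ) : E m) - (th m τ, τ)).2 = 0 := by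
          show τ - τ = 0
          ring
        rw [e5, norm_zero]
        exact e3
    -- the increment of `X - θ`
    have h3 : |(X (τ + k) l.succ - th m (τ + k) l.succ) - (X τ l.succ - th m τ l.succ)| ≤
        2 * K2 * τ ^ (-3 / 5 : ℝ) + K3 * (k * τ ^ (-7 / 5 : ℝ)) +
          τ ^ (-2 / 5 : ℝ) * (K4 * ((1 + 2 * K1) * τ ^ (-7 / 20 : ℝ))) := by
      have e1 := hK2 l.succ (τ + k) (by linarith)
      have e2 := hK2 l.succ τ hτ1
      have e3 : K2 * (τ + k) ^ (-3 / 5 : ℝ) ≤ K2 * τ ^ (-3 / 5 : ℝ) :=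
        mul_le_mul_of_nonneg_left
          (Real.rpow_le_rpow_of_nonpos hτp (by linarith) (by norm_num)) hK20
      have e4 : |((τ + k) ^ (-2 / 5 : ℝ) - τ ^ (-2 / 5 : ℝ)) * G l.succ (th m (τ + k), τ + k)| ≤
          K3 * (k * τ ^ (-7 / 5 : ℝ)) := by
        rw [abs_mul, mul_comm K3]
        exact mul_le_mul (inc hτp hk0) (hK3 _ _) (abs_nonneg _)
          (mul_nonneg hk0.le (Real.rpow_nonneg hτp.le _))
      have e5 : |τ ^ (-2 / 5 : ℝ) * (G l.succ (th m (τ + k), τ + k) - G l.succ (th m τ, τ))| ≤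
          τ ^ (-2 / 5 : ℝ) * (K4 * ((1 + 2 * K1) * τ ^ (-7 / 20 : ℝ))) := by
        rw [abs_mul, abs_of_pos (Real.rpow_pos_of_pos hτp _)]
        exact mul_le_mul_of_nonneg_left h2 (Real.rpow_nonneg hτp.le _)
      have e6 : (X (τ + k) l.succ - th m (τ + k) l.succ) - (X τ l.succ - th m τ l.succ) =
          (X (τ + k) l.succ - th m (τ + k) l.succ -
            (τ + k) ^ (-2 / 5 : ℝ) * G l.succ (th m (τ + k), τ + k)) -
          (X τ l.succ - th m τ l.succ - τ ^ (-2 / 5 : ℝ) * G l.succ (th m τ, τ)) +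
          (((τ + k) ^ (-2 / 5 : ℝ) - τ ^ (-2 / 5 : ℝ)) * G l.succ (th m (τ + k), τ + k) +
          τ ^ (-2 / 5 : ℝ) * (G l.succ (th m (τ + k), τ + k) - G l.succ (th m τ, τ))) := by ring
      rw [e6]
      refine (abs_add_le _ _).trans ?_
      have e7 := abs_sub (X (τ + k) l.succ - th m (τ + k) l.succ -
            (τ + k) ^ (-2 / 5 : ℝ) * G l.succ (th m (τ + k), τ + k))
          (X τ l.succ - th m τ l.succ - τ ^ (-2 / 5 : ℝ) * G l.succ (th m τ, τ))
      have e8 := abs_add_le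
        (((τ + k) ^ (-2 / 5 : ℝ) - τ ^ (-2 / 5 : ℝ)) * G l.succ (th m (τ + k), τ + k))
        (τ ^ (-2 / 5 : ℝ) * (G l.succ (th m (τ + k), τ + k) - G l.succ (th m τ, τ)))
      linarith
    -- the powers
    have q4 : τ ^ (-3 / 5 : ℝ) = τ ^ (-(1 / 20) : ℝ) * τ ^ (-11 / 20 : ℝ) := by
      rw [← Real.rpow_add hτp]
      norm_num
    have q5 : τ ^ (-2 / 5 : ℝ) * τ ^ (-7 / 20 : ℝ) ≤ τ ^ (-(1 / 20) : ℝ) * τ ^ (-11 / 20 : ℝ) := by
      rw [← Real.rpow_add hτp, ← Real.rpow_add hτp]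
      exact Real.rpow_le_rpow_of_exponent_le hτ1 (by norm_num)
    have q6 := hT₂ τ hτ2
    have h4 : 2 * K2 * τ ^ (-3 / 5 : ℝ) +
        τ ^ (-2 / 5 : ℝ) * (K4 * ((1 + 2 * K1) * τ ^ (-7 / 20 : ℝ))) ≤
        1 / 100 * τ ^ (-11 / 20 : ℝ) := by
      have e1 : τ ^ (-2 / 5 : ℝ) * (K4 * ((1 + 2 * K1) * τ ^ (-7 / 20 : ℝ))) =
          K4 * (1 + 2 * K1) * (τ ^ (-2 / 5 : ℝ) * τ ^ (-7 / 20 : ℝ)) := by ring
      have e2 : K4 * (1 + 2 * K1) * (τ ^ (-2 / 5 : ℝ) * τ ^ (-7 / 20 : ℝ)) ≤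
          K4 * (1 + 2 * K1) * (τ ^ (-(1 / 20) : ℝ) * τ ^ (-11 / 20 : ℝ)) :=
        mul_le_mul_of_nonneg_left q5 (by positivity)
      have e3 : (2 * K2 + K4 * (1 + 2 * K1)) * τ ^ (-(1 / 20) : ℝ) * τ ^ (-11 / 20 : ℝ) ≤
          1 / 100 * τ ^ (-11 / 20 : ℝ) := mul_le_mul_of_nonneg_right q6.le q0.le
      rw [e1, q4]
      linarith
    obtain ⟨b, hb⟩ := hincS l
    have h5 := hsi b
    have h6 := hth l.succ b
    have e5 : ∀ t, th m t l.succ = th0 i t := fun t => by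
      unfold th
      rw [hl]
    rw [e5, e5] at h6 h3
    have h7 : 0 ≤ 2 * K1 * k * τ ^ (-7 / 5 : ℝ) := by positivity
    linarith

end Pool.Agent.Helper88K9.E3
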